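import Mathlib

/-!
# MP_3e6e51_an: a Bowen function which is not a Walters function modulo weak coboundaries
-/

namespace Pool.Agent.Results.MP_3e6e51_an.BowenNotWalters

open Set Topology Filter

section Defs

variable {A : Type}

/-- the left shift -/
def σ (x : ℕ → A) : ℕ → A := fun n => x (n + 1)

open Classical in
/-- the metric `2^(-min {i : x i ≠ y i})` -/
noncomputable def dst (x y : ℕ → A) : ℝ := if x = y then 0 else (1 / 2) ^ sInf {i | x i ≠ y i}

/-- Birkhoff sums -/
noncomputable def S (f : (ℕ → A) → ℝ) (n : ℕ) (x : ℕ → A) : ℝ :=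
  ∑ k ∈ Finset.range n, f (σ^[k] x)

/-- Walters functions -/
def Walters (f : (ℕ → A) → ℝ) : Prop :=
  ∀ κ > 0, ∃ ε > 0, ∀ n ≥ 1, ∀ x y : ℕ → A,
    (∀ k < n, dst (σ^[k] x) (σ^[k] y) < ε) → |S f n x - S f n y| < κ

/-- Bowen functions -/
def Bowen (f : (ℕ → A) → ℝ) : Prop :=
  ∃ M > 0, ∃ ε > 0, ∀ n ≥ 1, ∀ x y : ℕ → A,
    (∀ k < n, dst (σ^[k] x) (σ^[k] y) < ε) → |S f n x - S f n y| ≤ M

/-- weak coboundaries: the uniform closure of the coboundaries -/
def WeakCoboundary [TopologicalSpace A] (g : (ℕ → A) → ℝ) : Prop :=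
  Continuous g ∧ ∀ ε > 0, ∃ q : (ℕ → A) → ℝ, Continuous q ∧ ∀ x, |g x - (q (σ x) - q x)| ≤ ε

end Defs

section Main

variable {A : Type}

lemma σ_iter (k : ℕ) (x : ℕ → A) (n : ℕ) : (σ^[k] x) n = x (n + k) := by
  induction k generalizing n with
  | zero => rfl
  | succ k ih =>
    rw [Function.iterate_succ_apply']
    show (σ^[k] x) (n + 1) = _
    rw [ih]
    congr 1; omega

lemma dst_lt_one {x y : ℕ → A} (h : dst x y < 1) : x 0 = y 0 := by
  by_contra hne
  unfold dst at h
  rw [if_neg (fun e => hne (congrFun e 0))] at h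
  have h0 : sInf {i | x i ≠ y i} = 0 := Nat.sInf_eq_zero.2 (Or.inl hne)
  rw [h0, pow_zero] at h
  exact lt_irrefl _ h

lemma dst_le {x y : ℕ → A} {K : ℕ} (h : ∀ i < K, x i = y i) : dst x y ≤ (1 / 2) ^ K := by
  unfold dst
  split_ifs with he
  · positivity
  · have hne : {i | x i ≠ y i}.Nonempty := by
      by_contra hcon
      apply he
      funext i
      by_contra hi
      exact hcon ⟨i, hi⟩
    have h1 : K ≤ sInf {i | x i ≠ y i} := by
      by_contra hcon
      push Not at hcon
      exact Nat.sInf_mem hne (h _ hcon)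
    exact pow_le_pow_of_le_one (by norm_num) (by norm_num) h1

/-- the lengths -/
def N (k : ℕ) : ℕ := (k + 1) * 2 ^ (k + 1)

lemma N_pos (k : ℕ) : 0 < N k := by unfold N; positivity

/-- the pattern -/
def P (a : A) (m : ℕ) (x : ℕ → A) : Prop :=
  ∃ q, 1 ≤ q ∧ q ≤ N m ∧ (∀ p < q, x p = a ↔ (m + 1) ∣ (q - 1 - p)) ∧
    ∀ p, q ≤ p → p ≤ q + m → x p ≠ a

open Classical in
/-- the building blocks -/
noncomputable def φm (a : A) (m : ℕ) (x : ℕ → A) : ℝ := if P a m x then 1 / (N m : ℝ) else 0

/-- the Bowen function -/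
noncomputable def φ (a : A) (x : ℕ → A) : ℝ := ∑' m, φm a m x

lemma φm_nonneg (a : A) (m : ℕ) (x : ℕ → A) : 0 ≤ φm a m x := by
  unfold φm; split_ifs <;> positivity

lemma φm_le (a : A) (m : ℕ) (x : ℕ → A) : φm a m x ≤ 1 / (N m : ℝ) := by
  unfold φm; split_ifs
  · exact le_rfl
  · positivity

lemma inv_N (m : ℕ) : 1 / (N m : ℝ) ≤ (1 / 2) ^ (m + 1) := by
  rw [one_div_pow]
  apply one_div_le_one_div_of_le (by positivity)
  unfold N
  push_cast
  have : (0 : ℝ) < 2 ^ (m + 1) := by positivity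
  nlinarith [Nat.cast_nonneg (α := ℝ) m]

lemma summable_geo : Summable fun m : ℕ => (1 / 2 : ℝ) ^ (m + 1) :=
  (summable_nat_add_iff 1).2 summable_geometric_two

lemma summable_φ (a : A) (x : ℕ → A) : Summable fun m => φm a m x :=
  Summable.of_nonneg_of_le (fun m => φm_nonneg a m x) (fun m => (φm_le a m x).trans (inv_N m))
    summable_geo

lemma P_congr {a : A} {m : ℕ} {x y : ℕ → A} (h : ∀ i < N m + m + 1, x i = y i) (hx : P a m x) :
    P a m y := by
  obtain ⟨q, h1, h2, h3, h4⟩ := hx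
  refine ⟨q, h1, h2, fun p hp => ?_, fun p hp1 hp2 => ?_⟩
  · rw [← h p (by omega)]; exact h3 p hp
  · rw [← h p (by omega)]; exact h4 p hp1 hp2

lemma continuous_φm [TopologicalSpace A] [DiscreteTopology A] (a : A) (m : ℕ) :
    Continuous (φm a m) := by
  rw [continuous_iff_continuousAt]
  intro x
  have h1 : {y : ℕ → A | ∀ i < N m + m + 1, y i = x i} ∈ 𝓝 x := by
    have : {y : ℕ → A | ∀ i < N m + m + 1, y i = x i} =
        ⋂ i ∈ Finset.range (N m + m + 1), (fun y : ℕ → A => y i) ⁻¹' {x i} := by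
      ext y; simp
    rw [this]
    refine (isOpen_biInter_finset fun i _ => ?_).mem_nhds (by simp)
    exact (isOpen_discrete ({x i} : Set A)).preimage (continuous_apply (A := fun _ : ℕ => A) i)
  refine ContinuousAt.congr continuousAt_const (f := fun _ => φm a m x) ?_
  filter_upwards [h1] with y hy
  have h2 : P a m x ↔ P a m y := ⟨P_congr fun i hi => (hy i hi).symm, P_congr hy⟩
  show φm a m x = φm a m y
  unfold φm
  by_cases h3 : P a m x
  · rw [if_pos h3, if_pos (h2.1 h3)]
  · rw [if_neg h3, if_neg (fun h => h3 (h2.2 h))]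

lemma continuous_φ [TopologicalSpace A] [DiscreteTopology A] (a : A) : Continuous (φ a) :=
  continuous_tsum (fun m => continuous_φm a m) summable_geo fun m x => by
    rw [Real.norm_of_nonneg (φm_nonneg a m x)]
    exact (φm_le a m x).trans (inv_N m)

lemma S_φ (a : A) (n : ℕ) (x : ℕ → A) : S (φ a) n x = ∑' m, S (φm a m) n x := by
  unfold S φ
  rw [Summable.tsum_finsetSum fun i _ => summable_φ a _]

lemma summable_S (a : A) (n : ℕ) (x : ℕ → A) : Summable fun m => S (φm a m) n x := by
  unfold S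
  exact summable_sum fun i _ => summable_φ a _

/-! ### the Bowen property -/

/-- the last complete run has length `k` -/
def Z (a : A) (n k : ℕ) (x : ℕ → A) : Prop :=
  ∃ e, e < n ∧ k + 1 ≤ e ∧ x e = a ∧ x (e - (k + 1)) = a ∧
    (∀ p, e - (k + 1) < p → p < e → x p ≠ a) ∧ ∀ p, e < p → p < n → x p ≠ a

lemma Z_unique {a : A} {n k k' : ℕ} {x : ℕ → A} (h : Z a n k x) (h' : Z a n k' x) : k = k' := by
  obtain ⟨e, he, hk, h1, h2, h3, h4⟩ := h
  obtain ⟨e', he', hk', h1', h2', h3', h4'⟩ := h'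
  have hee : e = e' := by
    rcases lt_trichotomy e e' with h | h | h
    · exact absurd h1' (h4 e' h he')
    · exact h
    · exact absurd h1 (h4' e h he)
  subst hee
  rcases lt_trichotomy k k' with h | h | h
  · exact absurd h2 (h3' _ (by omega) (by omega))
  · exact h
  · exact absurd h2' (h3 _ (by omega) (by omega))

/-- a pattern which is not complete at time `n` -/
lemma cross {a : A} {n i k : ℕ} {x y : ℕ → A} (hag : ∀ j < n, x j = y j)
    (hx : P a k (σ^[i] x)) (hy : ¬ P a k (σ^[i] y)) (hi : i + 2 * (k + 1) ≤ n) : Z a n k x := by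
  obtain ⟨q, h1, h2, h3, h4⟩ := hx
  simp only [σ_iter] at h3 h4
  have hcr : n ≤ q + k + i := by
    by_contra hcon
    push Not at hcon
    apply hy
    refine ⟨q, h1, h2, fun p hp => ?_, fun p hp1 hp2 => ?_⟩
    · rw [σ_iter, ← hag (p + i) (by omega)]; exact h3 p hp
    · rw [σ_iter, ← hag (p + i) (by omega)]; exact h4 p hp1 hp2
  -- the last symbol `a` before `n`
  set Q := q - 1 + i with hQ
  set t := (Q - (n - 1) + k) / (k + 1) with ht
  have hdm := Nat.div_add_mod (Q - (n - 1) + k) (k + 1)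
  have hml := Nat.mod_lt (Q - (n - 1) + k) (show 0 < k + 1 by omega)
  rw [← ht] at hdm
  -- `e = Q - (k+1) t`
  have ht1 : (k + 1) * t ≤ Q - (n - 1) + k := by omega
  have ht2 : Q - (n - 1) ≤ (k + 1) * t := by omega
  set T := (k + 1) * t with hT
  have hTQ : T + i + (k + 1) ≤ Q := by
    rcases le_or_gt (n - 1) Q with h | h
    · omega
    · have h0 : Q - (n - 1) + k < k + 1 := by omega
      have ht0 : t = 0 := Nat.div_eq_of_lt h0
      have hT0 : T = 0 := by rw [hT, ht0, mul_zero]
      omega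
  refine ⟨Q - T, ?_, by omega, ?_, ?_, ?_, ?_⟩
  · omega
  · have := (h3 (Q - T - i) (by omega)).2 (by
      rw [show q - 1 - (Q - T - i) = T by omega]; exact dvd_mul_right _ _)
    rwa [show Q - T - i + i = Q - T by omega] at this
  · have := (h3 (Q - T - (k + 1) - i) (by omega)).2 (by
      rw [show q - 1 - (Q - T - (k + 1) - i) = (k + 1) * (t + 1) by rw [mul_add, mul_one, ← hT]; omega]
      exact dvd_mul_right _ _)
    rwa [show Q - T - (k + 1) - i + i = Q - T - (k + 1) by omega] at this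
  · intro p hp1 hp2 hpa
    have h5 := (h3 (p - i) (by omega)).1 (by rwa [show p - i + i = p by omega])
    have h6 : q - 1 - (p - i) = T + (Q - T - p) := by omega
    rw [h6, hT, (Nat.dvd_add_right (dvd_mul_right _ _))] at h5
    have := Nat.le_of_dvd (by omega) h5
    omega
  · intro p hp1 hp2 hpa
    rcases lt_or_ge (p - i) q with h | h
    · have h5 := (h3 (p - i) h).1 (by rwa [show p - i + i = p by omega])
      have h6 : q - 1 - (p - i) + (p - (Q - T)) = T := by omega
      have h7 : (k + 1) ∣ (p - (Q - T)) := by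
        rw [← (Nat.dvd_add_right h5), h6]; exact dvd_mul_right _ _
      have := Nat.le_of_dvd (by omega) h7
      omega
    · exact h4 (p - i) h (by omega) (by rwa [show p - i + i = p by omega])

/-- the variation of one building block -/
lemma var_m (a : A) {n : ℕ} {x y : ℕ → A} (m : ℕ) (c : ℕ)
    (hc : ∀ i < n, (¬ (P a m (σ^[i] x) ↔ P a m (σ^[i] y))) → n < i + c) :
    |S (φm a m) n x - S (φm a m) n y| ≤ c * (1 / (N m : ℝ)) := by
  unfold S
  rw [← Finset.sum_sub_distrib]
  refine (Finset.abs_sum_le_sum_abs _ _).trans ?_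
  have h1 : ∀ i ∈ Finset.range n, |φm a m (σ^[i] x) - φm a m (σ^[i] y)| ≤
      if n < i + c then 1 / (N m : ℝ) else 0 := by
    intro i hi
    rw [Finset.mem_range] at hi
    split_ifs with h
    · have e1 := φm_nonneg a m (σ^[i] x)
      have e2 := φm_nonneg a m (σ^[i] y)
      have e3 := φm_le a m (σ^[i] x)
      have e4 := φm_le a m (σ^[i] y)
      rw [abs_le]; constructor <;> linarith
    · have h2 : P a m (σ^[i] x) ↔ P a m (σ^[i] y) := by
        by_contra hne
        exact h (hc i hi hne)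
      have h3 : φm a m (σ^[i] x) = φm a m (σ^[i] y) := by
        unfold φm
        by_cases h4 : P a m (σ^[i] x)
        · rw [if_pos h4, if_pos (h2.1 h4)]
        · rw [if_neg h4, if_neg (fun h => h4 (h2.2 h))]
      rw [h3, sub_self, abs_zero]
  refine (Finset.sum_le_sum h1).trans ?_
  rw [← Finset.sum_filter, Finset.sum_const, nsmul_eq_mul]
  refine mul_le_mul_of_nonneg_right ?_ (by positivity)
  have h2 : ((Finset.range n).filter fun i => n < i + c).card ≤ c := by
    have h3 : ((Finset.range n).filter fun i => n < i + c) ⊆ Finset.Ico (n - c) n := by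
      intro i hi
      rw [Finset.mem_filter, Finset.mem_range] at hi
      rw [Finset.mem_Ico]; omega
    refine (Finset.card_le_card h3).trans ?_
    rw [Nat.card_Ico]; omega
  exact_mod_cast h2

lemma var_S (a : A) {n : ℕ} {x y : ℕ → A} (hag : ∀ j < n, x j = y j) :
    |S (φ a) n x - S (φ a) n y| ≤ 4 := by
  classical
  -- bound for all `m`
  have h1 : ∀ m, |S (φm a m) n x - S (φm a m) n y| ≤ 2 := by
    intro m
    refine (var_m a m (N m + m + 1) fun i hi hne => ?_).trans ?_
    · by_contra hcon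
      push Not at hcon
      apply hne
      have h2 : ∀ j < N m + m + 1, (σ^[i] x) j = (σ^[i] y) j := by
        intro j hj
        rw [σ_iter, σ_iter]
        exact hag _ (by omega)
      exact ⟨P_congr h2, P_congr fun j hj => (h2 j hj).symm⟩
    · have h3 : m + 1 ≤ N m := by
        unfold N
        exact Nat.le_mul_of_pos_right _ (by positivity)
      have h4 : (0 : ℝ) < N m := by exact_mod_cast N_pos m
      rw [mul_one_div, div_le_iff₀ h4]
      have h5 : ((m + 1 : ℕ) : ℝ) ≤ N m := by exact_mod_cast h3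
      push_cast at h5 ⊢
      linarith
  have h2 : ∀ m, ¬ Z a n m x → |S (φm a m) n x - S (φm a m) n y| ≤ 2 * (1 / 2) ^ (m + 1) := by
    intro m hZ
    have hZ' : ¬ Z a n m y := by
      rintro ⟨e, he, hk, g1, g2, g3, g4⟩
      refine hZ ⟨e, he, hk, ?_, ?_, fun p hp1 hp2 => ?_, fun p hp1 hp2 => ?_⟩
      · rw [hag e he]; exact g1
      · rw [hag _ (by omega)]; exact g2
      · rw [hag p (by omega)]; exact g3 p hp1 hp2
      · rw [hag p hp2]; exact g4 p hp1 hp2
    refine (var_m a m (2 * (m + 1)) fun i hi hne => ?_).trans ?_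
    · by_contra hcon
      push Not at hcon
      by_cases hx : P a m (σ^[i] x)
      · by_cases hy : P a m (σ^[i] y)
        · exact hne ⟨fun _ => hy, fun _ => hx⟩
        · exact hZ (cross hag hx hy hcon)
      · by_cases hy : P a m (σ^[i] y)
        · exact hZ' (cross (fun j hj => (hag j hj).symm) hy hx hcon)
        · exact hne ⟨fun h => absurd h hx, fun h => absurd h hy⟩
    · have h4 : (0 : ℝ) < N m := by exact_mod_cast N_pos m
      rw [mul_one_div, div_le_iff₀ h4]
      unfold N
      push_cast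
      rw [one_div_pow]
      have h5 : (0 : ℝ) < 2 ^ (m + 1) := by positivity
      field_simp
      exact le_rfl
  -- summation
  rw [S_φ, S_φ, ← (summable_S a n x).tsum_sub (summable_S a n y)]
  obtain ⟨k0, hk0⟩ : ∃ k0, ∀ m, m ≠ k0 → ¬ Z a n m x := by
    by_cases h : ∃ k0, Z a n k0 x
    · obtain ⟨k0, hk0⟩ := h
      exact ⟨k0, fun m hm hZ => hm (Z_unique hZ hk0)⟩
    · exact ⟨0, fun m _ hZ => h ⟨m, hZ⟩⟩
  have h3 : ∀ m, |S (φm a m) n x - S (φm a m) n y| ≤
      2 * (1 / 2) ^ (m + 1) + (if m = k0 then 2 else 0) := by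
    intro m
    split_ifs with h
    · have : (0 : ℝ) ≤ 2 * (1 / 2) ^ (m + 1) := by positivity
      linarith [h1 m]
    · rw [add_zero]; exact h2 m (hk0 m h)
  have hs1 : Summable fun m : ℕ => 2 * (1 / 2 : ℝ) ^ (m + 1) := summable_geo.mul_left 2
  have hs2 : HasSum (fun m : ℕ => if m = k0 then (2 : ℝ) else 0) 2 := hasSum_ite_eq k0 2
  have hs3 : HasSum (fun m : ℕ => (1 / 2 : ℝ) ^ (m + 1)) 1 := by
    have := (hasSum_geometric_two).mul_left (1 / 2 : ℝ)
    simp only [← pow_succ'] at this
    norm_num at this ⊢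
    exact this
  have h5 : HasSum (fun m : ℕ => 2 * (1 / 2 : ℝ) ^ (m + 1) + (if m = k0 then 2 else 0)) 4 := by
    have := (hs3.mul_left 2).add hs2
    norm_num at this ⊢
    exact this
  have h6 : ‖∑' m, (S (φm a m) n x - S (φm a m) n y)‖ ≤ 4 := tsum_of_norm_bounded h5 h3
  exact h6

lemma bowen (a : A) : Bowen (φ a) := by
  refine ⟨4, by norm_num, 1, one_pos, fun n _ x y h => ?_⟩
  apply var_S
  intro j hj
  have := dst_lt_one (h j hj)
  rwa [σ_iter, σ_iter, zero_add] at this

/-! ### three periodic points -/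

open Classical in
/-- runs of length `k` -/
noncomputable def uinf (a b : A) (k : ℕ) : ℕ → A := fun n => if (k + 1) ∣ (n + 1) then a else b

open Classical in
/-- `2^(k+1)` runs of length `k`, then one run of length `k + 1`, periodically -/
noncomputable def pp (a b : A) (k : ℕ) : ℕ → A := fun n =>
  if (n % (N k + k + 2) < N k ∧ (k + 1) ∣ (n % (N k + k + 2) + 1)) ∨
    n % (N k + k + 2) = N k + k + 1 then a else b

lemma uinf_iff {a b : A} (hab : a ≠ b) {k n : ℕ} : uinf a b k n = a ↔ (k + 1) ∣ (n + 1) := by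
  unfold uinf; split_ifs with h
  · exact ⟨fun _ => h, fun _ => rfl⟩
  · exact ⟨fun e => absurd e.symm hab, fun h' => absurd h' h⟩

lemma uinf_or (a b : A) (k n : ℕ) : uinf a b k n = a ∨ uinf a b k n = b := by
  unfold uinf; split_ifs <;> simp

lemma pp_iff {a b : A} (hab : a ≠ b) {k n : ℕ} : pp a b k n = a ↔
    (n % (N k + k + 2) < N k ∧ (k + 1) ∣ (n % (N k + k + 2) + 1)) ∨
    n % (N k + k + 2) = N k + k + 1 := by
  unfold pp; split_ifs with h
  · exact ⟨fun _ => h, fun _ => rfl⟩
  · exact ⟨fun e => absurd e.symm hab, fun h' => absurd h' h⟩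

lemma pp_or (a b : A) (k n : ℕ) : pp a b k n = a ∨ pp a b k n = b := by
  unfold pp; split_ifs <;> simp

lemma eq_of_iff {a b : A} {u v : A} (hu : u = a ∨ u = b) (hv : v = a ∨ v = b)
    (h : u = a ↔ v = a) : u = v := by
  rcases hu with hu | hu
  · rw [hu, h.1 hu]
  · rcases hv with hv | hv
    · rw [hv, ← h.2 hv]
    · rw [hu, hv]

lemma dvd_N (k : ℕ) : (k + 1) ∣ N k := dvd_mul_right _ _

lemma N_ge (k : ℕ) : k + 1 ≤ N k := Nat.le_of_dvd (N_pos k) (dvd_N k)

/-- agreement with runs of length `k` -/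
lemma agree1 {a b : A} (hab : a ≠ b) {k j : ℕ} (hj : j < N k + k) : pp a b k j = uinf a b k j := by
  refine eq_of_iff (pp_or a b k j) (uinf_or a b k j) ?_
  rw [pp_iff hab, uinf_iff hab, Nat.mod_eq_of_lt (by omega)]
  constructor
  · rintro (⟨-, h⟩ | h)
    · exact h
    · omega
  · intro h
    left
    refine ⟨?_, h⟩
    by_contra hcon
    push Not at hcon
    have h1 : (k + 1) ∣ (j + 1 - N k) := Nat.dvd_sub h (dvd_N k)
    have := Nat.le_of_dvd (by omega) h1
    omega

/-- agreement with runs of length `k + 1` -/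
lemma agree2 {a b : A} (hab : a ≠ b) {k j : ℕ} (hj : j < 2 * k + 2) :
    pp a b k (j + N k) = uinf a b (k + 1) j := by
  have hN := N_ge k
  refine eq_of_iff (pp_or a b k _) (uinf_or a b _ j) ?_
  rw [pp_iff hab, uinf_iff hab]
  rcases lt_or_ge j (k + 2) with h | h
  · rw [Nat.mod_eq_of_lt (by omega)]
    constructor
    · rintro (⟨h1, -⟩ | h1)
      · omega
      · rw [show j + 1 = k + 1 + 1 by omega]
    · intro h1
      have := Nat.le_of_dvd (by omega) h1
      right; omega
  · have h1 : (j + N k) % (N k + k + 2) = j - (k + 2) := by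
      rw [show j + N k = (j - (k + 2)) + (N k + k + 2) by omega, Nat.add_mod_right,
        Nat.mod_eq_of_lt (by omega)]
    rw [h1]
    constructor
    · rintro (⟨-, h2⟩ | h2)
      · have := Nat.le_of_dvd (by omega) h2
        omega
      · omega
    · intro h2
      have h3 : (k + 1 + 1) ∣ (j + 1 - (k + 1 + 1)) := Nat.dvd_sub h2 (dvd_refl _)
      have := Nat.le_of_dvd (by omega) h3
      omega

/-- gaps -/
def Gap (a : A) (k : ℕ) (x : ℕ → A) : Prop := ∀ i j, i < j → x i = a → x j = a → i + k + 1 ≤ j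

/-- every window of length `k + 1` has a symbol `a` -/
def Dns (a : A) (k : ℕ) (x : ℕ → A) : Prop := ∀ i, ∃ j ≤ k, x (i + j) = a

lemma Gap_shift {a : A} {k : ℕ} {x : ℕ → A} (h : Gap a k x) (s : ℕ) : Gap a k (σ^[s] x) := by
  intro i j hij hi hj
  rw [σ_iter] at hi hj
  have := h (i + s) (j + s) (by omega) hi hj
  omega

lemma Dns_shift {a : A} {k : ℕ} {x : ℕ → A} (h : Dns a k x) (s : ℕ) : Dns a k (σ^[s] x) := by
  intro i
  obtain ⟨j, hj, hx⟩ := h (i + s)
  refine ⟨j, hj, ?_⟩
  rw [σ_iter, show i + j + s = i + s + j by omega]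
  exact hx

lemma Dns_not_P {a : A} {k m : ℕ} {x : ℕ → A} (h : Dns a k x) (hm : k ≤ m) : ¬ P a m x := by
  rintro ⟨q, -, -, -, h4⟩
  obtain ⟨j, hj, hx⟩ := h q
  exact h4 (q + j) (by omega) (by omega) hx

lemma Gap_P {a : A} {k m : ℕ} {x : ℕ → A} (h : Gap a k x) (hm : m < k) :
    P a m x ↔ ∃ j ≤ m, x j = a := by
  constructor
  · rintro ⟨q, h1, h2, h3, h4⟩
    refine ⟨(q - 1) % (m + 1), by have := Nat.mod_lt (q - 1) (show 0 < m + 1 by omega); omega, ?_⟩
    have h5 : (q - 1) % (m + 1) ≤ q - 1 := Nat.mod_le _ _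
    apply (h3 _ (by omega)).2
    have := Nat.div_add_mod (q - 1) (m + 1)
    exact ⟨(q - 1) / (m + 1), by omega⟩
  · rintro ⟨j, hj, hx⟩
    have hN := N_ge m
    refine ⟨j + 1, by omega, by omega, fun p hp => ?_, fun p hp1 hp2 hpa => ?_⟩
    · constructor
      · intro hpa
        rcases Nat.lt_or_ge p j with h6 | h6
        · have := h p j h6 hpa hx
          omega
        · have : p = j := by omega
          subst this
          simp
      · intro hd
        rcases Nat.lt_or_ge p j with h6 | h6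
        · have := Nat.le_of_dvd (by omega) hd
          omega
        · have : p = j := by omega
          rw [this]; exact hx
    · have := h j p (by omega) hx hpa
      omega

lemma Gap_uinf {a b : A} (hab : a ≠ b) (k : ℕ) : Gap a k (uinf a b k) := by
  intro i j hij hi hj
  rw [uinf_iff hab] at hi hj
  have h1 : (k + 1) ∣ (j + 1 - (i + 1)) := Nat.dvd_sub hj hi
  have := Nat.le_of_dvd (by omega) h1
  omega

lemma Dns_uinf {a b : A} (hab : a ≠ b) (k : ℕ) : Dns a k (uinf a b k) := by
  intro i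
  have h1 := Nat.div_add_mod i (k + 1)
  have h2 := Nat.mod_lt i (show 0 < k + 1 by omega)
  refine ⟨k - i % (k + 1), by omega, ?_⟩
  rw [uinf_iff hab]
  refine ⟨i / (k + 1) + 1, ?_⟩
  rw [mul_add, mul_one]
  omega

lemma Gap_pp {a b : A} (hab : a ≠ b) (k : ℕ) : Gap a k (pp a b k) := by
  intro i j hij hi hj
  rw [pp_iff hab] at hi hj
  set T := N k + k + 2 with hT
  have ei := Nat.div_add_mod i T
  have ej := Nat.div_add_mod j T
  have hi' := Nat.mod_lt i (show 0 < T by omega)
  have hj' := Nat.mod_lt j (show 0 < T by omega)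
  rcases eq_or_ne (i / T) (j / T) with h | h
  · rw [← h] at ej
    rcases hi with ⟨hi1, hi2⟩ | hi1
    · rcases hj with ⟨hj1, hj2⟩ | hj1
      · have h1 : (k + 1) ∣ (j % T + 1 - (i % T + 1)) := Nat.dvd_sub hj2 hi2
        have := Nat.le_of_dvd (by omega) h1
        omega
      · omega
    · omega
  · have h3 : i / T < j / T := lt_of_le_of_ne (Nat.div_le_div_right hij.le) h
    have h4 : T * (i / T) + T ≤ T * (j / T) := by
      rw [← Nat.mul_succ]; exact Nat.mul_le_mul_left _ h3
    have h5 : k ≤ j % T := by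
      rcases hj with ⟨hj1, hj2⟩ | hj1
      · have := Nat.le_of_dvd (by omega) hj2
        omega
      · omega
    omega

lemma Dns_pp {a b : A} (hab : a ≠ b) (k : ℕ) : Dns a (k + 1) (pp a b k) := by
  intro i
  set T := N k + k + 2 with hT
  have ei := Nat.div_add_mod i T
  have hi' := Nat.mod_lt i (show 0 < T by omega)
  have hmod : ∀ j, i % T + j < T → (i + j) % T = i % T + j := by
    intro j hj
    rw [Nat.add_mod, Nat.mod_eq_of_lt (show j < T by omega), Nat.mod_eq_of_lt hj]
  rcases lt_or_ge (i % T) (N k) with h | h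
  · set r := i % T with hr
    have h1 := Nat.div_add_mod r (k + 1)
    have h2 := Nat.mod_lt r (show 0 < k + 1 by omega)
    obtain ⟨c, hc⟩ := dvd_N k
    have h3 : r / (k + 1) < c := by
      rw [Nat.div_lt_iff_lt_mul (by omega), mul_comm, ← hc]; exact h
    have h4 : (k + 1) * (r / (k + 1)) + (k + 1) ≤ N k := by
      rw [hc, ← Nat.mul_succ]; exact Nat.mul_le_mul_left _ h3
    refine ⟨k - r % (k + 1), by omega, ?_⟩
    rw [pp_iff hab, ← hT, hmod _ (by omega)]
    left
    refine ⟨by omega, r / (k + 1) + 1, ?_⟩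
    rw [mul_add, mul_one]
    omega
  · refine ⟨N k + k + 1 - i % T, by omega, ?_⟩
    rw [pp_iff hab, ← hT, hmod _ (by omega)]
    right
    omega

/-! ### sums -/

lemma S_congr {f : (ℕ → A) → ℝ} {n : ℕ} {x y : ℕ → A}
    (h : ∀ i < n, f (σ^[i] x) = f (σ^[i] y)) : S f n x = S f n y :=
  Finset.sum_congr rfl fun i hi => h i (Finset.mem_range.1 hi)

lemma S_add' (f : (ℕ → A) → ℝ) (m n : ℕ) (x : ℕ → A) :
    S f (m + n) x = S f m x + S f n (σ^[m] x) := by
  unfold S
  rw [Finset.sum_range_add]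
  congr 1
  refine Finset.sum_congr rfl fun j _ => ?_
  rw [add_comm m j, Function.iterate_add_apply]

lemma φm_congr {a : A} {m : ℕ} {x y : ℕ → A} (h : P a m x ↔ P a m y) : φm a m x = φm a m y := by
  unfold φm
  by_cases h4 : P a m x
  · rw [if_pos h4, if_pos (h.1 h4)]
  · rw [if_neg h4, if_neg (fun h' => h4 (h.2 h'))]

lemma first {a b : A} (hab : a ≠ b) (k : ℕ) :
    S (φ a) (N k) (pp a b k) - S (φ a) (N k) (uinf a b k) = 1 := by
  rw [S_φ, S_φ, ← (summable_S a _ _).tsum_sub (summable_S a _ _), tsum_eq_single k]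
  · have h1 : S (φm a k) (N k) (uinf a b k) = 0 := by
      unfold S
      refine Finset.sum_eq_zero fun i _ => ?_
      unfold φm
      rw [if_neg (Dns_not_P (Dns_shift (Dns_uinf hab k) i) le_rfl)]
    have h2 : S (φm a k) (N k) (pp a b k) = 1 := by
      have h3 : ∀ i ∈ Finset.range (N k), φm a k (σ^[i] (pp a b k)) = 1 / (N k : ℝ) := by
        intro i hi
        rw [Finset.mem_range] at hi
        unfold φm
        rw [if_pos]
        obtain ⟨c, hc⟩ := dvd_N k
        refine ⟨N k - i, by omega, by omega, fun p hp => ?_, fun p hp1 hp2 => ?_⟩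
        · rw [σ_iter, pp_iff hab, Nat.mod_eq_of_lt (by omega)]
          have hsum : (p + i + 1) + (N k - i - 1 - p) = N k := by omega
          constructor
          · rintro (⟨-, h⟩ | h)
            · rw [← (Nat.dvd_add_right h), hsum]; exact dvd_N k
            · omega
          · intro h
            left
            refine ⟨by omega, ?_⟩
            rw [← (Nat.dvd_add_left h), hsum]; exact dvd_N k
        · rw [σ_iter, ne_eq, pp_iff hab, Nat.mod_eq_of_lt (by omega)]
          omega
      unfold S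
      rw [Finset.sum_congr rfl h3, Finset.sum_const, Finset.card_range, nsmul_eq_mul]
      have : (N k : ℝ) ≠ 0 := by exact_mod_cast (N_pos k).ne'
      field_simp
    rw [h1, h2, sub_zero]
  · intro m hm
    rw [sub_eq_zero]
    apply S_congr
    intro i hi
    apply φm_congr
    rcases lt_or_gt_of_ne hm with h | h
    · rw [Gap_P (Gap_shift (Gap_pp hab k) i) h, Gap_P (Gap_shift (Gap_uinf hab k) i) h]
      have h5 : ∀ j ≤ m, (σ^[i] (pp a b k)) j = (σ^[i] (uinf a b k)) j := by
        intro j hj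
        rw [σ_iter, σ_iter]
        exact agree1 hab (by omega)
      constructor
      · rintro ⟨j, hj, hx⟩; exact ⟨j, hj, by rw [← h5 j hj]; exact hx⟩
      · rintro ⟨j, hj, hx⟩; exact ⟨j, hj, by rw [h5 j hj]; exact hx⟩
    · have h6 := Dns_not_P (m := m) (Dns_shift (Dns_pp hab k) i) (by omega)
      have h7 := Dns_not_P (m := m) (Dns_shift (Dns_uinf hab k) i) (by omega)
      exact ⟨fun h => absurd h h6, fun h => absurd h h7⟩

lemma second {a b : A} (hab : a ≠ b) (k : ℕ) :
    -((k + 2 : ℕ) * (1 / (N k : ℝ))) ≤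
      S (φ a) (k + 2) (σ^[N k] (pp a b k)) - S (φ a) (k + 2) (uinf a b (k + 1)) := by
  rw [S_φ, S_φ, ← (summable_S a _ _).tsum_sub (summable_S a _ _), tsum_eq_single k]
  · have h1 : 0 ≤ S (φm a k) (k + 2) (σ^[N k] (pp a b k)) :=
      Finset.sum_nonneg fun i _ => φm_nonneg _ _ _
    have h2 : S (φm a k) (k + 2) (uinf a b (k + 1)) ≤ (k + 2 : ℕ) * (1 / (N k : ℝ)) := by
      unfold S
      refine (Finset.sum_le_sum fun i _ => φm_le a k _).trans ?_
      rw [Finset.sum_const, Finset.card_range, nsmul_eq_mul]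
    linarith
  · intro m hm
    rw [sub_eq_zero]
    apply S_congr
    intro i hi
    apply φm_congr
    rcases lt_or_gt_of_ne hm with h | h
    · have hg2 : Gap a k (uinf a b (k + 1)) := by
        intro i j hij hi hj
        have := Gap_uinf hab (k + 1) i j hij hi hj
        omega
      rw [Gap_P (Gap_shift (Gap_shift (Gap_pp hab k) (N k)) i) h, Gap_P (Gap_shift hg2 i) h]
      have h5 : ∀ j ≤ m, (σ^[i] (σ^[N k] (pp a b k))) j = (σ^[i] (uinf a b (k + 1))) j := by
        intro j hj
        rw [σ_iter, σ_iter, σ_iter]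
        exact agree2 hab (by omega)
      constructor
      · rintro ⟨j, hj, hx⟩; exact ⟨j, hj, by rw [← h5 j hj]; exact hx⟩
      · rintro ⟨j, hj, hx⟩; exact ⟨j, hj, by rw [h5 j hj]; exact hx⟩
    · have h6 := Dns_not_P (m := m) (Dns_shift (Dns_shift (Dns_pp hab k) (N k)) i) (by omega)
      have h7 := Dns_not_P (m := m) (Dns_shift (Dns_uinf hab (k + 1)) i) (by omega)
      exact ⟨fun h => absurd h h6, fun h => absurd h h7⟩

lemma wcob_sum [TopologicalSpace A] {g : (ℕ → A) → ℝ} (hg : WeakCoboundary g) {n : ℕ}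
    {x : ℕ → A} (hx : σ^[n] x = x) : S g n x = 0 := by
  have key : ∀ ε > 0, |S g n x| ≤ n * ε := by
    intro ε hε
    obtain ⟨q, -, hq⟩ := hg.2 ε hε
    have h1 : ∑ i ∈ Finset.range n, (q (σ (σ^[i] x)) - q (σ^[i] x)) = 0 := by
      have := Finset.sum_range_sub (fun i => q (σ^[i] x)) n
      simp only [Function.iterate_succ_apply', Function.iterate_zero, id_eq] at this
      rw [this, hx, sub_self]
    have h2 : S g n x = ∑ i ∈ Finset.range n, (g (σ^[i] x) - (q (σ (σ^[i] x)) - q (σ^[i] x))) := by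
      rw [Finset.sum_sub_distrib, h1, sub_zero]; rfl
    rw [h2]
    refine (Finset.abs_sum_le_sum_abs _ _).trans ((Finset.sum_le_sum fun i _ => hq _).trans ?_)
    rw [Finset.sum_const, Finset.card_range, nsmul_eq_mul]
  by_contra hne
  have hpos : 0 < |S g n x| := abs_pos.2 hne
  have h3 := key (|S g n x| / (n + 1)) (by positivity)
  rw [← mul_div_assoc, le_div_iff₀ (by positivity)] at h3
  nlinarith

lemma walters_agree {h : (ℕ → A) → ℝ} (hh : Walters h) {κ : ℝ} (hκ : 0 < κ) :
    ∃ K : ℕ, ∀ n ≥ 1, ∀ x y : ℕ → A, (∀ j < n + K, x j = y j) → |S h n x - S h n y| < κ := by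
  obtain ⟨ε, hε, hH⟩ := hh κ hκ
  obtain ⟨K, hK⟩ := exists_pow_lt_of_lt_one hε (by norm_num : (1 / 2 : ℝ) < 1)
  refine ⟨K, fun n hn x y hxy => hH n hn x y fun k hk => lt_of_le_of_lt (dst_le fun i hi => ?_) hK⟩
  rw [σ_iter, σ_iter]
  exact hxy _ (by omega)

/-- For every finite alphabet with at least two letters there is a continuous Bowen function on
the full shift which is not the sum of a weak coboundary and of a continuous Walters function. -/
theorem result (A : Type) [Finite A] [Nontrivial A] [TopologicalSpace A] [DiscreteTopology A] :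
    ∃ φ : (ℕ → A) → ℝ, Continuous φ ∧ Bowen φ ∧
      ¬ ∃ g h : (ℕ → A) → ℝ, WeakCoboundary g ∧ (Continuous h ∧ Walters h) ∧
        ∀ x, φ x = g x + h x := by
  obtain ⟨a, b, hab⟩ := exists_pair_ne A
  refine ⟨φ a, continuous_φ a, bowen a, ?_⟩
  rintro ⟨g, h, hg, ⟨-, hh⟩, hsum⟩
  obtain ⟨K, hK⟩ := walters_agree hh (show (0 : ℝ) < 1 / 8 by norm_num)
  set k := K + 1 with hk
  have hS : ∀ n x, S (φ a) n x = S g n x + S h n x := by
    intro n x
    unfold S
    rw [← Finset.sum_add_distrib]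
    exact Finset.sum_congr rfl fun i _ => hsum _
  -- periodic sums
  have p1 : σ^[N k] (uinf a b k) = uinf a b k := by
    funext n
    rw [σ_iter]
    refine eq_of_iff (uinf_or a b k _) (uinf_or a b k n) ?_
    rw [uinf_iff hab, uinf_iff hab, show n + N k + 1 = n + 1 + N k by ring,
      Nat.dvd_add_left (dvd_N k)]
  have p2 : σ^[k + 2] (uinf a b (k + 1)) = uinf a b (k + 1) := by
    funext n
    rw [σ_iter]
    refine eq_of_iff (uinf_or a b _ _) (uinf_or a b _ n) ?_
    rw [uinf_iff hab, uinf_iff hab, show n + (k + 2) + 1 = n + 1 + (k + 1 + 1) by ring,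
      Nat.dvd_add_left (dvd_refl _)]
  have p3 : σ^[N k + (k + 2)] (pp a b k) = pp a b k := by
    funext n
    rw [σ_iter]
    refine eq_of_iff (pp_or a b k _) (pp_or a b k n) ?_
    rw [pp_iff hab, pp_iff hab, show n + (N k + (k + 2)) = n + (N k + k + 2) by ring,
      Nat.add_mod_right]
  have q1 : S (φ a) (N k) (uinf a b k) = S h (N k) (uinf a b k) := by
    rw [hS, wcob_sum hg p1, zero_add]
  have q2 : S (φ a) (k + 2) (uinf a b (k + 1)) = S h (k + 2) (uinf a b (k + 1)) := by
    rw [hS, wcob_sum hg p2, zero_add]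
  have q3 : S (φ a) (N k + (k + 2)) (pp a b k) = S h (N k + (k + 2)) (pp a b k) := by
    rw [hS, wcob_sum hg p3, zero_add]
  rw [S_add' (φ a) (N k) (k + 2), S_add' h (N k) (k + 2)] at q3
  have w1 := hK (N k) (N_pos k) (pp a b k) (uinf a b k) fun j hj => agree1 hab (by omega)
  have w2 := hK (k + 2) (by omega) (σ^[N k] (pp a b k)) (uinf a b (k + 1)) fun j hj => by
    rw [σ_iter]; exact agree2 hab (by omega)
  have f1 := first hab k
  have f2 := second hab k
  have f3 : ((k + 2 : ℕ) : ℝ) * (1 / (N k : ℝ)) ≤ 1 / 2 := by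
    have h4 : (0 : ℝ) < N k := by exact_mod_cast N_pos k
    rw [mul_one_div, div_le_div_iff₀ h4 (by norm_num)]
    have h5 : (k + 2) * 2 ≤ 1 * N k := by
      unfold N
      have h6 : 4 ≤ 2 ^ (k + 1) := by
        calc 4 = 2 ^ 2 := by norm_num
          _ ≤ 2 ^ (k + 1) := Nat.pow_le_pow_right (by norm_num) (by omega)
      nlinarith
    exact_mod_cast h5
  have w1' := abs_lt.1 w1
  have w2' := abs_lt.1 w2
  linarith

end Main

end Pool.Agent.Results.MP_3e6e51_an.BowenNotWalters
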